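import Pool.Agent.H37.CTL.Stmts

/-!
# Board `ctl`, row T56
-/

set_option autoImplicit false

namespace Pool.CND

open Finset Polynomial

namespace T56H56

section ords

variable {k L : Type} [Field k] [Field L] [Algebra k L] (P : Place k L)

theorem ge_aeval {x : L} (hx : x ≠ 0) (hlt : P.ord x < 0) (r : Polynomial k) (N : ℕ)
    (hN : r.natDegree ≤ N) : P.Ge (Polynomial.aeval x r) (N * P.ord x) := by
  rw [Polynomial.aeval_eq_sum_range]
  refine P.ge_sum _ _ _ fun i hi => ?_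
  have hi' : i ≤ N := by
    have := Finset.mem_range.1 hi
    omega
  rw [Algebra.smul_def]
  have h1 := P.ge_mul (P.ge_const (r.coeff i)) (Or.inr le_rfl : P.Ge (x ^ i) (P.ord (x ^ i)))
  rw [zero_add, P.ord_pow hx] at h1
  refine P.ge_mono h1 ?_
  have : (i : ℤ) ≤ N := by exact_mod_cast hi'
  nlinarith

/-- order of a polynomial at an element of negative order -/
theorem ord_aeval {x : L} (hx : x ≠ 0) (hlt : P.ord x < 0) (g : Polynomial k)
    (hg : 1 ≤ g.natDegree) :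
    Polynomial.aeval x g ≠ 0 ∧ P.ord (Polynomial.aeval x g) = g.natDegree * P.ord x := by
  have h1 := Polynomial.eraseLead_add_monomial_natDegree_leadingCoeff g
  have hl : g.leadingCoeff ≠ 0 := by
    intro h
    rw [Polynomial.leadingCoeff_eq_zero] at h
    rw [h, Polynomial.natDegree_zero] at hg
    omega
  have hl' : algebraMap k L g.leadingCoeff ≠ 0 := by
    rwa [Ne, map_eq_zero]
  have h2 : Polynomial.aeval x g =
      algebraMap k L g.leadingCoeff * x ^ g.natDegree + Polynomial.aeval x g.eraseLead := by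
    conv_lhs => rw [← h1]
    rw [map_add, Polynomial.aeval_monomial, add_comm]
  have h3 : P.ord (algebraMap k L g.leadingCoeff * x ^ g.natDegree) = g.natDegree * P.ord x := by
    rw [P.ord_mul _ _ hl' (pow_ne_zero _ hx), P.ord_const _ hl, P.ord_pow hx, zero_add]
  have h4 := ge_aeval P hx hlt g.eraseLead (g.natDegree - 1) (Polynomial.eraseLead_natDegree_le g)
  have h5 : P.Ge (Polynomial.aeval x g.eraseLead)
      (P.ord (algebraMap k L g.leadingCoeff * x ^ g.natDegree) + 1) := by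
    refine P.ge_mono h4 ?_
    rw [h3]
    have : ((g.natDegree - 1 : ℕ) : ℤ) = g.natDegree - 1 := by
      push_cast [hg]
      ring
    rw [this]
    nlinarith
  obtain ⟨h6, h7⟩ := P.ord_add_of_lt (mul_ne_zero hl' (pow_ne_zero _ hx)) h5
  rw [h2]
  exact ⟨h6, by rw [h7, h3]⟩

/-- orders of `y` and `y ^ p - y` -/
theorem ord_as {y : L} {p : ℕ} (hp : 2 ≤ p) (hy : y ≠ 0) (hneg : P.ord y < 0) :
    y ^ p - y ≠ 0 ∧ P.ord (y ^ p - y) = p * P.ord y := by
  have hp' : (2 : ℤ) ≤ p := by exact_mod_cast hp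
  have h3 : P.Ge (-y) (P.ord (y ^ p) + 1) := by
    refine P.ge_mono (P.ge_neg (P.ge_ord y)) ?_
    rw [P.ord_pow hy]
    nlinarith
  obtain ⟨h5, h4⟩ := P.ord_add_of_lt (pow_ne_zero p hy) h3
  rw [← sub_eq_add_neg] at h4 h5
  exact ⟨h5, by rw [h4, P.ord_pow hy]⟩

theorem ge_pow {x : L} {n : ℤ} (h : P.Ge x n) (m : ℕ) : P.Ge (x ^ m) (m * n) := by
  induction m with
  | zero => exact Or.inr (by simp [P.ord_one])
  | succ m ih =>
    have h2 := P.ge_mul ih h
    rw [← pow_succ] at h2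
    exact P.ge_mono h2 (by push_cast; linarith)

theorem ge_pow_sub {x y : L} {o e : ℤ} (hx : P.Ge x o) (hy : P.Ge y o) (hxy : P.Ge (x - y) e)
    (n : ℕ) (hn : 1 ≤ n) : P.Ge (x ^ n - y ^ n) (((n : ℤ) - 1) * o + e) := by
  rw [← (Commute.all x y).geom_sum₂_mul n]
  refine P.ge_mul (P.ge_sum _ _ _ fun i hi => ?_) hxy
  have h1 := P.ge_mul (ge_pow P hx i) (ge_pow P hy (n - 1 - i))
  refine P.ge_mono h1 ?_
  have hi' := Finset.mem_range.1 hi
  have h2 : ((n - 1 - i : ℕ) : ℤ) = n - 1 - i := by omega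
  rw [h2]
  apply le_of_eq
  ring

/-- the order of `F (z) + E` minus `g ^ p - g` -/
theorem ord_tot {z E Sm : L} {p D : ℕ} {F r : Polynomial k} (hz : z ≠ 0) (hlt : P.ord z < 0)
    (hD : (F - (r ^ p - r)).natDegree = D) (hD1 : 1 ≤ D) (hS : Sm = aeval z F + E)
    (hE : P.Ge E (D * P.ord z + 1)) :
    Sm - ((aeval z r) ^ p - aeval z r) ≠ 0 ∧
      P.ord (Sm - ((aeval z r) ^ p - aeval z r)) = D * P.ord z := by
  obtain ⟨h1, h2⟩ := ord_aeval P hz hlt (F - (r ^ p - r)) (by omega)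
  rw [hD] at h2
  have h3 : Sm - ((aeval z r) ^ p - aeval z r) = aeval z (F - (r ^ p - r)) + E := by
    rw [hS]
    simp only [map_sub, map_pow]
    ring
  obtain ⟨h4, h5⟩ := P.ord_add_of_lt h1 (by rw [h2]; exact hE)
  rw [h3]
  exact ⟨h4, by rw [h5, h2]⟩

end ords

section pol

/-- the coefficients of `X ^ q - X` -/
def ee (k : Type) [Field k] (f : ℕ) (j : ℕ) : k := if j = f then 1 else if j = 0 then -1 else 0

theorem ee_sum (k : Type) [Field k] (p f : ℕ) (hf : 1 ≤ f) :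
    (X ^ (p ^ f) - X : Polynomial k) = ∑ j ∈ range (f + 1), C (ee k f j) * X ^ (p ^ j) := by
  rw [Finset.sum_range_succ, Finset.sum_eq_single_of_mem 0 (Finset.mem_range.2 (by omega))]
  · have h1 : (0 : ℕ) ≠ f := by omega
    simp only [ee, if_pos, if_neg h1, map_neg, map_one, pow_zero, pow_one]
    ring
  · intro j hj hj0
    have h1 : j ≠ f := by
      have := Finset.mem_range.1 hj
      omega
    simp [ee, h1, hj0]

theorem arith {p f q ν : ℕ} (hp : p.Prime) (hp2 : p ≠ 2) (hf : 1 ≤ f) (hq : q = p ^ f)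
    (hν : ν = q ^ 3 - q - 2) : 3 ≤ q ∧ p ∣ q ∧ ν + q + 2 = q ^ 3 ∧ 22 ≤ ν ∧ ¬ p ∣ 2 := by
  have hp3 : 3 ≤ p := by
    have := hp.two_le
    omega
  have hpq : p ∣ q := by
    rw [hq]
    exact dvd_pow_self p (by omega)
  have hq0 : 0 < q := by rw [hq]; exact pow_pos hp.pos f
  have hq3 : 3 ≤ q := hp3.trans (Nat.le_of_dvd hq0 hpq)
  have h1 : 9 * q ≤ q ^ 3 := by
    have : 3 * 3 ≤ q * q := Nat.mul_le_mul hq3 hq3
    calc 9 * q ≤ (q * q) * q := Nat.mul_le_mul_right q (by omega)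
      _ = q ^ 3 := by ring
  refine ⟨hq3, hpq, by omega, by omega, fun h => ?_⟩
  have := Nat.le_of_dvd (by norm_num) h
  omega

theorem ndvd {p f q ν : ℕ} (hp : p.Prime) (hp2 : p ≠ 2) (hf : 1 ≤ f) (hq : q = p ^ f)
    (hν : ν = q ^ 3 - q - 2) : ¬ p ∣ ν ∧ ¬ p ∣ (ν + 1) ∧ ¬ p ∣ (q * (ν - 1) + 2) := by
  obtain ⟨hq3, hpq, h1, h2, h3⟩ := arith hp hp2 hf hq hν
  have hpq3 : p ∣ q ^ 3 := dvd_pow hpq (by norm_num)
  refine ⟨fun h => ?_, fun h => ?_, fun h => ?_⟩
  · have h4 : p ∣ (ν + q) + 2 := by rw [h1]; exact hpq3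
    exact h3 ((Nat.dvd_add_right (dvd_add h hpq)).1 h4)
  · have h4 : p ∣ ((ν + 1) + q) + 1 := by
      have : ((ν + 1) + q) + 1 = q ^ 3 := by omega
      rw [this]; exact hpq3
    have h5 := (Nat.dvd_add_right (dvd_add h hpq)).1 h4
    exact hp.one_lt.ne' (Nat.dvd_one.1 h5)
  · exact h3 ((Nat.dvd_add_right (Dvd.dvd.mul_right hpq _)).1 h)

variable {k : Type} [Field k] [IsAlgClosed k]

theorem red2 (h_xt2 : S_XT2) {p f q ν : ℕ} [CharP k p] (hp : p.Prime) (hp2 : p ≠ 2) (hf : 1 ≤ f)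
    (hq : q = p ^ f) (hν : ν = q ^ 3 - q - 2) (α β : k) (hβ : β ≠ 0) :
    ∃ r : Polynomial k, ((C α * (X ^ q - X) ^ ν + C β * (X * (X ^ q - X) ^ ν -
      (X ^ q - X) ^ (ν + 1))) - (r ^ p - r)).natDegree = q * (ν - 1) + 2 := by
  obtain ⟨hq3, hpq, h1, h2, h3⟩ := arith hp hp2 hf hq hν
  obtain ⟨n1, n2, n3⟩ := ndvd hp hp2 hf hq hν
  have hf0 : (0 : ℕ) ≠ f := by omega
  have he0 : ee k f 0 = -1 := by simp [ee, hf0]
  have hef : ee k f f = 1 := by simp [ee]
  obtain ⟨r, hr⟩ := h_xt2 p f k (ee k f) ν α β 0 (X ^ q - X) hp hp2 hef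
    (by rw [he0]; exact neg_ne_zero.2 one_ne_zero) (by rw [hq]; exact ee_sum k p f hf) hf
    (by omega) n1 n2 hβ (by rw [natDegree_zero]; omega)
  refine ⟨r, ?_⟩
  have hqk : (q : k) = 0 := (CharP.cast_eq_zero_iff k p q).2 hpq
  have hνk : ((ν + 1 : ℕ) : k) = -1 := by
    have h4 : ((ν + q + 2 : ℕ) : k) = ((q ^ 3 : ℕ) : k) := by rw [h1]
    push_cast at h4 ⊢
    rw [hqk] at h4
    linear_combination h4
  rw [hνk, he0] at hr
  have hc : (-1 / ((-1 : k) * -1)) = -1 := by norm_num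
  rw [hc, add_zero, ← hq] at hr
  rw [← hr]
  congr 1
  rw [map_neg, map_one]
  ring

theorem deg_as {p : ℕ} (hp : p.Prime) (s : Polynomial k) : p ∣ (s ^ p - s).natDegree := by
  by_cases hs : s.natDegree = 0
  · obtain ⟨c, hc⟩ := natDegree_eq_zero.1 hs
    have : (s ^ p - s).natDegree = 0 := by
      rw [← hc, ← C_pow, ← C_sub, natDegree_C]
    rw [this]
    exact dvd_zero p
  · have h1 : (s ^ p - s).natDegree = p * s.natDegree := by
      rw [natDegree_sub_eq_left_of_natDegree_lt, natDegree_pow]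
      rw [natDegree_pow]
      have := hp.two_le
      have h0 : 1 ≤ s.natDegree := by omega
      nlinarith
    rw [h1]
    exact dvd_mul_right p _

theorem red1 (h_xt1 : S_XT1) (h_xt2 : S_XT2) (h_xrd : S_XRD) {p f q ν : ℕ} [CharP k p]
    (hp : p.Prime) (hp2 : p ≠ 2) (hf : 1 ≤ f) (hq : q = p ^ f) (hν : ν = q ^ 3 - q - 2) (α : k)
    (hα : α ≠ 0) : ∃ (D : ℕ) (r : Polynomial k), q * (ν - 1) + 1 ≤ D ∧ D ≤ q * (ν - 1) + 2 ∧
      ¬ p ∣ D ∧ (C α * (X ^ q - X) ^ ν - (r ^ p - r)).natDegree = D := by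
  obtain ⟨hq3, hpq, h1, h2, h3⟩ := arith hp hp2 hf hq hν
  obtain ⟨n1, n2, n3⟩ := ndvd hp hp2 hf hq hν
  have hf0 : (0 : ℕ) ≠ f := by omega
  have he0 : ee k f 0 = -1 := by simp [ee, hf0]
  have hef : ee k f f = 1 := by simp [ee]
  have hxt := fun (g : Polynomial k) (hg : g.natDegree < p ^ f * (ν - 1) + 1) =>
    h_xt1 p f k (ee k f) ν α g (X ^ q - X) hp hef
    (by rw [he0]; exact neg_ne_zero.2 one_ne_zero) (by rw [hq]; exact ee_sum k p f hf) hf
    (by omega) n1 hα hg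
  rcases h_xrd p k (C α * (X ^ q - X) ^ ν) hp with ⟨r, hr⟩ | ⟨D, r, hD1, hpD, hdeg⟩
  · exact absurd (by rw [add_zero]; exact hr) (hxt 0 (by rw [natDegree_zero]; omega) r)
  refine ⟨D, r, ?_, ?_, hpD, hdeg⟩
  · by_contra hc
    refine hxt (-(C α * (X ^ q - X) ^ ν - (r ^ p - r))) ?_ r (by ring)
    rw [natDegree_neg, hdeg, ← hq]
    omega
  · by_contra hc
    obtain ⟨r₁, hr₁⟩ := red2 h_xt2 hp hp2 hf hq hν α (1 : k) one_ne_zero
    obtain ⟨r₂, hr₂⟩ := red2 h_xt2 hp hp2 hf hq hν (0 : k) (1 : k) one_ne_zero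
    have hfact : Fact p.Prime := ⟨hp⟩
    have e1 : C α * (X ^ q - X) ^ ν - ((r₁ - r₂) ^ p - (r₁ - r₂)) =
        ((C α * (X ^ q - X) ^ ν + C 1 * (X * (X ^ q - X) ^ ν - (X ^ q - X) ^ (ν + 1))) -
          (r₁ ^ p - r₁)) - ((C 0 * (X ^ q - X) ^ ν + C 1 * (X * (X ^ q - X) ^ ν -
          (X ^ q - X) ^ (ν + 1))) - (r₂ ^ p - r₂)) := by
      have e0 : (r₁ - r₂) ^ p = r₁ ^ p - r₂ ^ p := sub_pow_char _ _
      rw [e0, map_zero]
      ring
    have h4 : (C α * (X ^ q - X) ^ ν - ((r₁ - r₂) ^ p - (r₁ - r₂))).natDegree ≤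
        q * (ν - 1) + 2 := by
      rw [e1]
      exact (natDegree_sub_le _ _).trans (by rw [hr₁, hr₂, max_self])
    have h5 : ((C α * (X ^ q - X) ^ ν - ((r₁ - r₂) ^ p - (r₁ - r₂))) -
        (C α * (X ^ q - X) ^ ν - (r ^ p - r))).natDegree = D := by
      rw [natDegree_sub_eq_right_of_natDegree_lt, hdeg]
      rw [hdeg]
      omega
    have e2 : (C α * (X ^ q - X) ^ ν - ((r₁ - r₂) ^ p - (r₁ - r₂))) -
        (C α * (X ^ q - X) ^ ν - (r ^ p - r)) =
        (r - (r₁ - r₂)) ^ p - (r - (r₁ - r₂)) := by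
      have e0 : (r - (r₁ - r₂)) ^ p = r ^ p - (r₁ - r₂) ^ p := sub_pow_char _ _
      rw [e0]
      ring
    rw [e2] at h5
    apply hpD
    rw [← h5]
    exact deg_as hp _

end pol

theorem sl3_one {F : Type} [Field F] (g : Matrix.SpecialLinearGroup (Fin 3) F)
    (hl : ∀ i j, j < i → g.1 i j = 0) (hd : ∀ i, g.1 i i = 1) (h01 : g.1 0 1 = 0)
    (h02 : g.1 0 2 = 0) (h12 : g.1 1 2 = 0) : g = 1 := by
  have l1 := hl 1 0 (by decide)
  have l2 := hl 2 0 (by decide)
  have l3 := hl 2 1 (by decide)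
  have d0 := hd 0
  have d1 := hd 1
  have d2 := hd 2
  clear hl hd
  apply Matrix.SpecialLinearGroup.ext
  intro i j
  fin_cases i <;> fin_cases j <;> simp_all

end T56H56

open T56H56 in
theorem t56_thm (h_umr : S_UMR) (h_xt1 : S_XT1) (h_xt2 : S_XT2) (h_xrd : S_XRD) : S_T56 := by
  intro p k F L _ _ _ _ _ _ f q t X G₀ _ ρ P S₂ S₃ h z α W M τ hp hp2 hchar hf hq hF hC ht hun
    hS2 hS3 hX0 hS20 hh hα hz hord hge hgeA hW hM hτ hpτ hoz hρz hρh
  have := hchar
  obtain ⟨ν, hν⟩ : ∃ ν, ν = q ^ 3 - q - 2 := ⟨_, rfl⟩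
  obtain ⟨hq3, hpq, hν3, hν22, hp_2⟩ := arith hp hp2 hf hq hν
  obtain ⟨n1, n2, n3⟩ := ndvd hp hp2 hf hq hν
  rw [← hν] at hgeA
  have hcM : 1 ≤ Nat.card M := Nat.card_pos
  have hτM : 1 ≤ τ * Nat.card M := Nat.mul_pos hτ hcM
  have hlt : P.ord z < 0 := by
    rw [hoz]
    omega
  have hz0 : z ≠ 0 := by
    intro h0
    rw [h0, zero_pow (by omega), sub_zero, zero_add] at hge
    have := (P.ge_iff hh _).1 hge
    omega
  obtain ⟨A, hA⟩ : ∃ A, A = z ^ q - z := ⟨_, rfl⟩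
  obtain ⟨hA0, hoA⟩ := ord_as P (by omega : 2 ≤ q) hz0 hlt
  rw [← hA] at hA0 hoA hge
  have hoh : P.ord h = q * P.ord z := by
    have h1 : P.Ge (-(A + h)) (P.ord h + 1) := P.ge_mono (P.ge_neg hge) (by omega)
    have h2 := (P.ord_add_of_lt hh h1).2
    have h3 : h + -(A + h) = -A := by ring
    rw [h3, P.ord_neg, hoA] at h2
    exact h2.symm
  have hot : P.ord t = ((q : ℤ) - 1) * (q * P.ord z) := by rw [← hord, hoh]
  have hq3' : (3 : ℤ) ≤ q := by exact_mod_cast hq3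
  have hohA : P.ord A = P.ord h := by rw [hoA, hoh]
  have hhneg : P.ord h < 0 := by rw [hoh]; nlinarith
  -- the estimate of `S₂ / X 0 ^ q`
  obtain ⟨α', hα'⟩ : ∃ α' : k, α' = α * (-1) ^ ν := ⟨_, rfl⟩
  have hα'0 : α' ≠ 0 := by
    rw [hα']
    exact mul_ne_zero hα (pow_ne_zero _ (neg_ne_zero.2 one_ne_zero))
  obtain ⟨E1, hE1⟩ : ∃ E1, E1 = S₂ / X 0 ^ q - algebraMap k L α' * A ^ ν := ⟨_, rfl⟩
  have hgE1 : P.Ge E1 ((ν : ℤ) * P.ord h - P.ord t) := by
    have e1 : E1 = (S₂ / X 0 ^ q - algebraMap k L α * h ^ ν) +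
        algebraMap k L α * (h ^ ν - (-A) ^ ν) := by
      rw [hE1, hα', map_mul, map_pow, map_neg, map_one, neg_pow A ν]
      ring
    rw [e1]
    refine P.ge_add hgeA ?_
    have h1 := ge_pow_sub P (P.ge_ord h) (y := -A) (o := P.ord h) (e := P.ord h - P.ord t)
      (by rw [← hohA]; exact P.ge_neg (P.ge_ord A))
      (by
        have : h - -A = A + h := by ring
        rw [this]; exact hge) ν (by omega)
    have h2 := P.ge_mul (P.ge_const α) h1
    exact P.ge_mono h2 (le_of_eq (by ring))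
  -- the coordinates
  obtain ⟨Z, hZ⟩ : ∃ Z : Fin 2 → L, Z = ![X 1 / X 0, X 2 / X 0] := ⟨_, rfl⟩
  have hX0q : X 0 ^ q = X 0 ^ (q - 1) * X 0 := by
    rw [← pow_succ]
    congr 1
    omega
  have hX0q1 : X 0 ^ (q - 1) ≠ 0 := pow_ne_zero _ hX0
  have hdiv : ∀ y : L, (y / X 0) ^ q - y / X 0 = (y ^ q - X 0 ^ (q - 1) * y) / X 0 ^ q := by
    intro y
    rw [div_pow, sub_div, hX0q, mul_div_mul_left _ _ hX0q1]
  have hZ0 : Z 0 ^ q - Z 0 = S₂ / X 0 ^ q := by
    rw [hZ, hS2]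
    exact hdiv (X 1)
  have hZ1 : Z 1 ^ q - Z 1 = (z + h) * (S₂ / X 0 ^ q) := by
    have h1 : (z + h) * (S₂ / X 0 ^ q) = S₃ / X 0 ^ q := by
      rw [hz]
      field_simp
      ring
    rw [h1, hZ, hS3]
    exact hdiv (X 2)
  have hfix : ∀ r : Polynomial k, ∀ w ∈ M, ρ w (aeval z r) = aeval z r := by
    intro r w hw
    have hw' := (hM w).1 hw
    have h1 : ρ w z = z := by
      rw [hρz w hw'.1, hw'.2]
      simp
    have h2 : ρ w (aeval z r) = aeval (ρ w z) r :=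
      (Polynomial.aeval_algHom_apply (ρ w : L ≃ₐ[k] L).toAlgHom z r).symm
    rw [h2, h1]
  have haev : ∀ n : ℕ, aeval z ((Polynomial.X ^ q - Polynomial.X : Polynomial k) ^ n) = A ^ n := by
    intro n
    rw [map_pow, map_sub, map_pow, aeval_X, ← hA]
  -- the orders
  have hmain : ∀ a : Fin 2 → F, a ≠ 0 → ∃ Dd : ℕ, 1 ≤ Dd ∧ ¬ p ∣ Dd ∧
      Dd ≤ (q * (ν - 1) + 2) * τ ∧ (a 1 ≠ 0 → Dd = (q * (ν - 1) + 2) * τ) ∧
      ∃ g : L, (∀ w ∈ M, ρ w g = g) ∧
        (∑ i, cst k F L (a i) * (Z i ^ q - Z i) - (g ^ p - g)) ≠ 0 ∧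
        P.ord (∑ i, cst k F L (a i) * (Z i ^ q - Z i) - (g ^ p - g)) =
          -((Dd * Nat.card M : ℕ) : ℤ) := by
    intro a ha
    rw [Fin.sum_univ_two, hZ0, hZ1]
    have hcast : ((ν : ℤ)) = (ν - 1 : ℕ) + 1 := by omega
    have ho1 : P.ord z ≤ -1 := by omega
    by_cases ha1 : a 1 = 0
    · have ha0 : a 0 ≠ 0 := by
        intro h0
        apply ha
        funext i
        fin_cases i
        · exact h0
        · exact ha1
      have hb0 : algebraMap F k (a 0) * α' ≠ 0 :=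
        mul_ne_zero (by rwa [Ne, map_eq_zero]) hα'0
      obtain ⟨D, r, hD1, hD2, hpD, hdeg⟩ := red1 h_xt1 h_xt2 h_xrd hp hp2 hf hq hν _ hb0
      refine ⟨D * τ, Nat.mul_pos (by omega) hτ, fun hd => ?_, Nat.mul_le_mul_right _ hD2,
        fun h1 => absurd ha1 h1, aeval z r, hfix r, ?_⟩
      · rcases hp.dvd_mul.1 hd with h1 | h1
        · exact hpD h1
        · exact hpτ h1
      · have key := ord_tot P hz0 hlt hdeg (by omega) (E := cst k F L (a 0) * E1)
          (Sm := cst k F L (a 0) * (S₂ / X 0 ^ q) + cst k F L (a 1) *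
            ((z + h) * (S₂ / X 0 ^ q))) ?_ ?_
        · refine ⟨key.1, ?_⟩
          rw [key.2, hoz]
          push_cast
          ring
        · rw [ha1, map_mul, aeval_C, haev, hE1]
          simp only [map_zero, zero_mul, add_zero, map_mul, cst]
          ring
        · have h1 := P.ge_mul (P.ge_const (algebraMap F k (a 0))) hgE1
          refine P.ge_mono h1 ?_
          rw [hot, hoh]
          have hD1' : (q : ℤ) * (ν - 1 : ℕ) + 1 ≤ D := by exact_mod_cast hD1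
          rw [hcast]
          nlinarith [mul_nonneg (by linarith : (0 : ℤ) ≤ -P.ord z)
            (by nlinarith : (0 : ℤ) ≤ (D : ℤ) - (q * (ν - 1 : ℕ) + 1)),
            mul_nonneg (by linarith : (0 : ℤ) ≤ -P.ord z)
            (by nlinarith : (0 : ℤ) ≤ (q : ℤ) * (q - 2))]
    · have hb1 : algebraMap F k (a 1) * α' ≠ 0 :=
        mul_ne_zero (by rwa [Ne, map_eq_zero]) hα'0
      obtain ⟨r, hdeg⟩ := red2 h_xt2 hp hp2 hf hq hν (algebraMap F k (a 0) * α') _ hb1
      refine ⟨(q * (ν - 1) + 2) * τ, Nat.mul_pos (by omega) hτ, fun hd => ?_, le_rfl,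
        fun _ => rfl, aeval z r, hfix r, ?_⟩
      · rcases hp.dvd_mul.1 hd with h1 | h1
        · exact n3 h1
        · exact hpτ h1
      · have key := ord_tot P hz0 hlt hdeg (by omega) (E := cst k F L (a 0) * E1 +
          cst k F L (a 1) * ((z + h) * E1 + (A + h) * (algebraMap k L α' * A ^ ν)))
          (Sm := cst k F L (a 0) * (S₂ / X 0 ^ q) + cst k F L (a 1) *
            ((z + h) * (S₂ / X 0 ^ q))) ?_ ?_
        · refine ⟨key.1, ?_⟩
          rw [key.2, hoz]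
          push_cast
          ring
        · simp only [map_add, map_mul, map_sub, aeval_C, haev, aeval_X, cst, hE1]
          rw [hA]
          ring
        · have hgz : P.Ge z (P.ord h) := Or.inr (by rw [hoh]; nlinarith)
          have g1 := P.ge_mul (P.ge_const (algebraMap F k (a 0))) hgE1
          have g2 := P.ge_mul (P.ge_add hgz (P.ge_ord h)) hgE1
          have g3 := P.ge_mul hge (P.ge_mul (P.ge_const α') (ge_pow P (P.ge_ord A) ν))
          rw [hohA] at g3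
          have g1' : P.Ge (cst k F L (a 0) * E1) (((ν : ℤ) + 1) * P.ord h - P.ord t) :=
            P.ge_mono g1 (by linarith)
          have g2' : P.Ge ((z + h) * E1) (((ν : ℤ) + 1) * P.ord h - P.ord t) :=
            P.ge_mono g2 (by linarith)
          have g3' : P.Ge ((A + h) * (algebraMap k L α' * A ^ ν))
              (((ν : ℤ) + 1) * P.ord h - P.ord t) := P.ge_mono g3 (by linarith)
          have g4 := P.ge_mul (P.ge_const (algebraMap F k (a 1))) (P.ge_add g2' g3')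
          rw [zero_add] at g4
          refine P.ge_mono (P.ge_add g1' g4) ?_
          rw [hot, hoh, hcast]
          push_cast
          nlinarith [mul_nonneg (by linarith : (0 : ℤ) ≤ -P.ord z)
            (by nlinarith : (0 : ℤ) ≤ (q : ℤ) * (q - 3))]
  choose! Da hDa using hmain
  have hMW : ∀ g ∈ M, g ∈ W ∧ g.1.1 1 2 = 0 := fun g hg => (hM g).1 hg
  have hMram : ∀ g ∈ M, g ∈ ram P ρ 1 := by
    intro g hg
    rw [← hW]
    exact (hMW g hg).1
  obtain ⟨hc1, hc2, -, hc4⟩ := h_umr p k F L G₀ f q 2 ((q * (ν - 1) + 2) * τ) P ρ M ⊥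
    (fun g => ![g.1.1 0 1, g.1.1 0 2]) Z Da hp hchar hf hq hF (by norm_num) hC.cov.inj hMram
    bot_le
    (by
      intro g hg
      have hu := hun g (hMram g hg)
      have h12 := (hMW g hg).2
      constructor
      · intro h1
        rw [Subgroup.mem_bot] at h1
        rw [h1]
        funext i
        fin_cases i <;> simp
      · intro h1
        have h01 : g.1.1 0 1 = 0 := congrFun h1 0
        have h02 : g.1.1 0 2 = 0 := congrFun h1 1
        rw [Subgroup.mem_bot]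
        exact Subtype.ext (sl3_one g.1 hu.1 hu.2 h01 h02 h12))
    (by
      intro g hg g' hg'
      have hu := hun g (hMram g hg)
      have hu' := hun g' (hMram g' hg')
      have h12 := (hMW g hg).2
      have h12' := (hMW g' hg').2
      have l1 := hu.1 1 0 (by decide)
      have l2 := hu.1 2 0 (by decide)
      have l3 := hu.1 2 1 (by decide)
      have l1' := hu'.1 1 0 (by decide)
      have l2' := hu'.1 2 0 (by decide)
      have l3' := hu'.1 2 1 (by decide)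
      have d0 := hu.2 0
      have d1 := hu'.2 1
      have d2 := hu'.2 2
      funext i
      fin_cases i
      · show (g * g').1.1 0 1 = g.1.1 0 1 + g'.1.1 0 1
        rw [Subgroup.coe_mul, Matrix.SpecialLinearGroup.coe_mul, Matrix.mul_apply,
          Fin.sum_univ_three, d0, d1, l3']
        ring
      · show (g * g').1.1 0 2 = g.1.1 0 2 + g'.1.1 0 2
        rw [Subgroup.coe_mul, Matrix.SpecialLinearGroup.coe_mul, Matrix.mul_apply,
          Fin.sum_univ_three, d0, d2, h12']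
        ring)
    (by
      intro g hg i
      have hu := hun g (hMram g hg)
      have h12 := (hMW g hg).2
      have l1 := hu.1 1 0 (by decide)
      have l2 := hu.1 2 0 (by decide)
      have l3 := hu.1 2 1 (by decide)
      have d0 := hu.2 0
      have d1 := hu.2 1
      have d2 := hu.2 2
      have c1 : cst k F L 1 = 1 := by rw [cst, map_one, map_one]
      have c0 : cst k F L 0 = 0 := by rw [cst, map_zero, map_zero]
      have a0 : ρ g (X 0) = X 0 := by
        rw [hC.act g 0, Fin.sum_univ_three, d0, l1, l2, c1, c0]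
        ring
      have a1 : ρ g (X 1) = cst k F L (g.1.1 0 1) * X 0 + X 1 := by
        rw [hC.act g 1, Fin.sum_univ_three, d1, l3, c1, c0]
        generalize cst k F L (g.1.1 0 1) = u
        ring
      have a2 : ρ g (X 2) = cst k F L (g.1.1 0 2) * X 0 + X 2 := by
        rw [hC.act g 2, Fin.sum_univ_three, d2, h12, c1, c0]
        generalize cst k F L (g.1.1 0 2) = u
        ring
      rw [hZ]
      fin_cases i
      · show ρ g (X 1 / X 0) = X 1 / X 0 + cst k F L (g.1.1 0 1)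
        rw [map_div₀, a0, a1]
        field_simp
        ring
      · show ρ g (X 2 / X 0) = X 2 / X 0 + cst k F L (g.1.1 0 2)
        rw [map_div₀, a0, a2]
        field_simp
        ring)
    (by
      intro a ha
      obtain ⟨h1, h2, h3, -, h5⟩ := hDa a ha
      exact ⟨h1, h2, h3, h5⟩)
  have hbot : Nat.card (⊥ : Subgroup G₀) = 1 := Subgroup.card_bot
  refine ⟨by rw [hc1, hbot, mul_one], fun v => ?_, ?_⟩
  · obtain ⟨g, hg, hg'⟩ := hc2 v
    exact ⟨g, hg, congrFun hg' 0, congrFun hg' 1⟩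
  · have hne : (![0, 1] : Fin 2 → F) ≠ 0 := by
      intro h0
      have := congrFun h0 1
      simp at this
    have h1 := hc4 rfl ⟨![0, 1], hne, (hDa _ hne).2.2.2.1 (by simp)⟩
    have h2 : q ^ 3 - q - 3 = ν - 1 := by omega
    rw [h2]
    exact h1

end Pool.CND
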